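import Pool.Agent.helper66.SL.SpecA

set_option autoImplicit false

namespace Pool.Agent.helper66.SL

open Pool.Agent.helper52.FC

lemma CDC_sq (s : SignType) (h : s ≠ 0) : (s : ℝ) * (s : ℝ) = 1 := by
  cases s
  · exact absurd rfl h
  · simp
  · simp

lemma CDC_ne (s : SignType) (h : s ≠ 0) : (s : ℝ) ≠ 0 := by
  intro h0
  have := CDC_sq s h
  rw [h0, zero_mul] at this
  exact zero_ne_one this

lemma CDC_neg (s : SignType) : ((-s : SignType) : ℝ) = -(s : ℝ) := by
  cases s <;> simp

theorem CDC_proof (hSTI : STI) (hPAT : PAT) (hSZZ : SZZ) : CDC := by
  intro E _ L hL hcl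
  have hne : ∀ T, IsTope L T → ∀ g, T g ≠ 0 := fun T hT g => tope_supp hL.om hL.simple hT g
  refine ⟨?_, ?_, ?_, ?_⟩
  · intro Z hZ f hf f' hff' T hT hZT a b c h1 h2 h3 h4 h5 h6 h7 h8
    rw [hff' a h6, hff' b h7, hff' c h8]
    exact hf T hT hZT a b c h1 h2 h3 h4 h5 h6 h7 h8
  · intro Z hZ T hT hZT i j hij hi hj hZi hZj x y
    classical
    by_cases hc : ∃ c, Z c = 0 ∧ c ≠ i ∧ c ≠ j
    · obtain ⟨c, hZc, hci, hcj⟩ := hc
      have h3 : {g | Z g = 0}.ncard = 3 := by
        rcases (hSZZ E L hL hcl Z hZ).1 with h | h
        · exfalso
          have hsub : ({i, j, c} : Set E) ⊆ {g | Z g = 0} := by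
            rintro g (rfl | rfl | rfl)
            · exact hZi
            · exact hZj
            · exact hZc
          have hcard : ({i, j, c} : Set E).ncard = 3 := by
            rw [Set.ncard_eq_three]
            exact ⟨i, j, c, hij, hci.symm, hcj.symm, rfl⟩
          have := Set.ncard_le_ncard hsub (Set.toFinite _)
          omega
        · exact h
      have hall : ∀ g, Z g = 0 → g = i ∨ g = j ∨ g = c := by
        have hsub : ({i, j, c} : Set E) ⊆ {g | Z g = 0} := by
          rintro g (rfl | rfl | rfl)
          · exact hZi
          · exact hZj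
          · exact hZc
        have hcard : ({i, j, c} : Set E).ncard = 3 := by
          rw [Set.ncard_eq_three]
          exact ⟨i, j, c, hij, hci.symm, hcj.symm, rfl⟩
        have heq : ({i, j, c} : Set E) = {g | Z g = 0} :=
          Set.eq_of_subset_of_ncard_le hsub (by omega) (Set.toFinite _)
        intro g hg
        have : g ∈ ({i, j, c} : Set E) := by
          rw [heq]
          exact hg
        simpa using this
      refine ⟨fun g => if g = i then x else if g = j then y else (T c : ℝ) * (T i * x + T j * y), ?_,
        by simp, by simp [hij.symm]⟩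
      intro R hR hZR
      refine hSTI E L hL.om hL.simple Z hZ.1 (fun S => ∀ a b d, a ≠ b → d ≠ a → d ≠ b → Wall L S a →
        Wall L S b → Z a = 0 → Z b = 0 → Z d = 0 →
          (S d : ℝ) * (if d = i then x else if d = j then y else (T c : ℝ) * (T i * x + T j * y)) =
          S a * (if a = i then x else if a = j then y else (T c : ℝ) * (T i * x + T j * y)) +
          S b * (if b = i then x else if b = j then y else (T c : ℝ) * (T i * x + T j * y)))
        T hT hZT ?_ ?_ R hR hZR
      · intro a b d hab hda hdb hwa hwb hZa hZb hZd
        have hnc : ¬ Wall L T c :=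
          (hPAT E L hL Z hZ i j c hij hci hcj hZi hZj hZc hall T hT hZT hi hj).1
        have hac : a ≠ c := fun h => hnc (h ▸ hwa)
        have hbc : b ≠ c := fun h => hnc (h ▸ hwb)
        have hTc := CDC_sq (T c) (hne T hT c)
        rcases hall a hZa with ha | ha | ha
        · rcases hall b hZb with hb | hb | hb
          · exact absurd (ha.trans hb.symm) hab
          · rcases hall d hZd with hd | hd | hd
            · exact absurd (hd.trans ha.symm) hda
            · exact absurd (hd.trans hb.symm) hdb
            · rw [ha, hb, hd, if_neg hci, if_neg hcj, if_pos rfl, if_neg hij.symm, if_pos rfl,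
                ← mul_assoc, hTc, one_mul]
          · exact absurd hb hbc
        · rcases hall b hZb with hb | hb | hb
          · rcases hall d hZd with hd | hd | hd
            · exact absurd (hd.trans hb.symm) hdb
            · exact absurd (hd.trans ha.symm) hda
            · rw [ha, hb, hd, if_neg hci, if_neg hcj, if_pos rfl, if_neg hij.symm, if_pos rfl,
                ← mul_assoc, hTc, one_mul]
              ring
          · exact absurd (ha.trans hb.symm) hab
          · exact absurd hb hbc
        · exact absurd ha hac
      · intro S hS hZS hQ e he hZe a b d hab hda hdb hwa hwb hZa hZb hZd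
        -- the other wall of `S`
        have hk := hZ.2 S hS hZS
        obtain ⟨p, hp, hpe⟩ : ∃ p ∈ {g | Wall L S g ∧ Z g = 0}, p ≠ e := by
          by_contra hno
          push Not at hno
          have hsub : {g | Wall L S g ∧ Z g = 0} ⊆ {e} := fun g hg => hno g hg
          have := Set.ncard_le_ncard hsub (Set.toFinite _)
          rw [Set.ncard_singleton] at this
          omega
        obtain ⟨hwp, hZp⟩ := hp
        -- the third one
        obtain ⟨q, hZq, hqe, hqp, hallq⟩ : ∃ q, Z q = 0 ∧ q ≠ e ∧ q ≠ p ∧
            ∀ g, Z g = 0 → g = e ∨ g = p ∨ g = q := by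
          have hn1 : ({g | Z g = 0} \ {e, p}).Nonempty := by
            by_contra hno
            rw [Set.not_nonempty_iff_eq_empty, Set.sdiff_eq_empty] at hno
            have h1 := Set.ncard_le_ncard hno (Set.toFinite _)
            rw [Set.ncard_pair hpe.symm] at h1
            omega
          obtain ⟨q, hq1, hq2⟩ := hn1
          have hqe : q ≠ e := fun h => hq2 (by simp [h])
          have hqp : q ≠ p := fun h => hq2 (by simp [h])
          have hsub : ({e, p, q} : Set E) ⊆ {g | Z g = 0} := by
            rintro g (rfl | rfl | rfl)
            · exact hZe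
            · exact hZp
            · exact hq1
          have hcard : ({e, p, q} : Set E).ncard = 3 := by
            rw [Set.ncard_eq_three]
            exact ⟨e, p, q, hpe.symm, hqe.symm, hqp.symm, rfl⟩
          have heq : ({e, p, q} : Set E) = {g | Z g = 0} :=
            Set.eq_of_subset_of_ncard_le hsub (by omega) (Set.toFinite _)
          refine ⟨q, hq1, hqe, hqp, fun g hg => ?_⟩
          have : g ∈ ({e, p, q} : Set E) := by
            rw [heq]
            exact hg
          simpa using this
        obtain ⟨hp1, hp2, hp3⟩ :=
          hPAT E L hL Z hZ e p q hpe.symm hqe hqp hZe hZp hZq hallq S hS hZS he hwp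
        have hrel := hQ e p q hpe.symm hqe hqp he hwp hZe hZp hZq
        have hap : a ≠ p := fun h => hp3 (h ▸ hwa)
        have hbp : b ≠ p := fun h => hp3 (h ▸ hwb)
        have hfe : ((fl S e e : SignType) : ℝ) = -(S e : ℝ) := by rw [fl_same, CDC_neg]
        have hfp : fl S e p = S p := fl_ne S hpe
        have hfq : fl S e q = S q := fl_ne S hqe
        rcases hallq a hZa with ha | ha | ha
        · rcases hallq b hZb with hb | hb | hb
          · exact absurd (ha.trans hb.symm) hab
          · exact absurd hb hbp
          · rcases hallq d hZd with hd | hd | hd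
            · exact absurd (hd.trans ha.symm) hda
            · rw [ha, hb, hd, hfe, hfp, hfq]
              linarith
            · exact absurd (hd.trans hb.symm) hdb
        · exact absurd ha hap
        · rcases hallq b hZb with hb | hb | hb
          · rcases hallq d hZd with hd | hd | hd
            · exact absurd (hd.trans hb.symm) hdb
            · rw [ha, hb, hd, hfe, hfp, hfq]
              linarith
            · exact absurd (hd.trans ha.symm) hda
          · exact absurd hb hbp
          · exact absurd (ha.trans hb.symm) hab
    · push Not at hc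
      refine ⟨fun g => if g = i then x else y, ?_, by simp, by simp [hij.symm]⟩
      intro R hR hZR a b d hab hda hdb _ _ hZa hZb hZd
      exfalso
      have key : ∀ g, Z g = 0 → g = i ∨ g = j := by
        intro g hg
        by_cases h : g = i
        · exact Or.inl h
        · exact Or.inr (hc g hg h)
      rcases key a hZa with ha | ha
      · rcases key b hZb with hb | hb
        · exact hab (ha.trans hb.symm)
        · rcases key d hZd with hd | hd
          · exact hda (hd.trans ha.symm)
          · exact hdb (hd.trans hb.symm)
      · rcases key b hZb with hb | hb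
        · rcases key d hZd with hd | hd
          · exact hdb (hd.trans hb.symm)
          · exact hda (hd.trans ha.symm)
        · exact hab (ha.trans hb.symm)
  · intro Z hZ T hT hZT i j hij hi hj hZi hZj f hf hfi hfj g hg
    by_cases h1 : g = i
    · rw [h1]; exact hfi
    by_cases h2 : g = j
    · rw [h2]; exact hfj
    have h := hf T hT hZT i j g hij h1 h2 hi hj hZi hZj hg
    rw [hfi, hfj, mul_zero, mul_zero, add_zero] at h
    exact (mul_eq_zero.mp h).resolve_left (CDC_ne _ (hne T hT g))
  · intro Z hZ T hT hZT i j hij hi hj hZi hZj f hf hfi hfj g hg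
    by_cases h1 : g = i
    · rw [h1]; exact hfi
    by_cases h2 : g = j
    · rw [h2]; exact hfj
    have h := hf T hT hZT i j g hij h1 h2 hi hj hZi hZj hg
    rw [h]
    exact add_pos hfi hfj

end Pool.Agent.helper66.SL
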