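import Pool.Agent.helper66.SL.SpecC

set_option autoImplicit false

namespace Pool.Agent.helper66.SL

open Pool.Agent.helper52.FC

lemma CEV_fl {E : Type} (T : E → SignType) (e : E) : fl (fun f => -T f) e = fun f => -(fl T e f) := by
  funext f
  by_cases h : f = e
  · subst h
    rw [fl_same, fl_same]
  · rw [fl_ne _ h, fl_ne _ h]

lemma CEV_cork {E : Type} [Finite E] {L : Set (E → SignType)} (hG : Good L) (p : E → SignType) (m : ℕ)
    (hp : Cork L p m) : Cork L (fun e => -p e) m := by
  refine ⟨hG.om.neg p hp.1, fun T hT hle => ?_⟩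
  have hT' : IsTope L (fun e => -T e) := tope_neg hG.om hG.simple hT
  have hle' : Le p (fun e => -T e) := by
    intro e
    rcases hle e with h | h
    · left
      simpa using h
    · right
      show p e = -T e
      rw [← h, neg_neg]
  have h := hp.2 _ hT' hle'
  rw [← h]
  congr 1
  ext e
  simp only [Set.mem_ofPred_eq]
  have hw : Wall L (fun e => -T e) e ↔ Wall L T e := by
    unfold Wall
    rw [CEV_fl]
    constructor
    · intro h1
      have := tope_neg hG.om hG.simple h1
      simpa using this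
    · intro h1
      exact tope_neg hG.om hG.simple h1
  rw [hw]
  constructor
  · rintro ⟨h1, h2⟩
    exact ⟨h1, by simpa using h2⟩
  · rintro ⟨h1, h2⟩
    exact ⟨h1, by simpa using h2⟩

lemma CEV_vx {E : Type} [Finite E] {L : Set (E → SignType)} (hG : Good L) (p : E → SignType) (m : ℕ)
    (hp : Vx L m p) : Vx L m (fun e => -p e) := by
  refine ⟨CEV_cork hG p 2 hp.1, ?_⟩
  rw [← hp.2]
  congr 1
  ext e
  simp

lemma CEV_ne {E : Type} [Finite E] {L : Set (E → SignType)} (hR : R3 L) (p : E → SignType)
    (hp : Cork L p 2) : (fun e => -p e) ≠ p := by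
  intro h
  have h0 : p = fun _ => 0 := by
    funext e
    have h1 := congrFun h e
    exact sneg h1.symm rfl
  obtain ⟨T, hT⟩ := exists_tope hR.good.om
  have hle : Le p T := by
    intro e
    left
    rw [h0]
  have h2 := hp.2 T hT hle
  have h3 := hR.rk.2 T hT (fun e => Or.inl rfl)
  rw [h0] at h2
  rw [h2] at h3
  omega

lemma CEV_even {E : Type} [Finite E] (s : Set (E → SignType)) (h1 : ∀ p ∈ s, (fun e => -p e) ∈ s)
    (h2 : ∀ p ∈ s, (fun e => -p e) ≠ p) : Even s.ncard := by
  classical
  rw [Set.ncard_eq_toFinset_card s (Set.toFinite s)]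
  have h := Finset.sum_involution (s := (Set.toFinite s).toFinset) (f := fun _ => (1 : ZMod 2))
    (fun p _ => fun e => -p e) (fun p _ => by decide)
    (fun p hp _ => h2 p (by simpa using hp)) (fun p hp => by
      have := h1 p (by simpa using hp)
      simpa using this) (fun p _ => by
      funext e
      exact neg_neg _)
  rw [Finset.sum_const, nsmul_eq_mul, mul_one] at h
  exact (ZMod.natCast_eq_zero_iff_even).1 h

theorem CEV_proof : CEV := by
  intro E _ L hR
  refine ⟨CEV_even _ (fun p hp => CEV_vx hR.good p 3 hp) (fun p hp => CEV_ne hR p hp.1), fun e => ⟨?_, ?_⟩⟩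
  · refine CEV_even _ (fun p hp => ⟨CEV_vx hR.good p 2 hp.1, ?_⟩) (fun p hp => CEV_ne hR p hp.1.1)
    show -p e = 0
    rw [hp.2]
    rfl
  · refine CEV_even _ (fun p hp => ⟨CEV_vx hR.good p 3 hp.1, ?_⟩) (fun p hp => CEV_ne hR p hp.1.1)
    show -p e = 0
    rw [hp.2]
    rfl

end Pool.Agent.helper66.SL
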