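import Pool.Agent.helper66.SL.SpecC

set_option autoImplicit false

namespace Pool.Agent.helper66.SL

open Pool.Agent.helper52.FC

lemma IN2_card {α : Type*} [Fintype α] (P : α → Prop) [DecidablePred P] :
    {x | P x}.ncard = (Finset.univ.filter P).card := by
  rw [← Set.ncard_coe_finset]
  congr 1
  ext x
  simp

theorem IN2_proof (hSZZ : SZZ) (hTRI : TRI) (hSTC : STC) : IN2 := by
  classical
  intro E _ L hR
  have := Fintype.ofFinite E
  have e1 : {T | IsTope L T}.ncard = (Finset.univ.filter (fun T : E → SignType => IsTope L T)).card :=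
    IN2_card _
  have e2 : {p | Vx L 2 p}.ncard = (Finset.univ.filter (fun p : E → SignType => Vx L 2 p)).card :=
    IN2_card _
  have e3 : {p | Vx L 3 p}.ncard = (Finset.univ.filter (fun p : E → SignType => Vx L 3 p)).card :=
    IN2_card _
  rw [e1, e2, e3]
  have hdc := Finset.sum_card_bipartiteAbove_eq_sum_card_bipartiteBelow
    (s := Finset.univ.filter (fun T : E → SignType => IsTope L T))
    (t := Finset.univ.filter (fun p : E → SignType => Cork L p 2)) (fun T p => Le p T)
  have hleft : ∀ T ∈ Finset.univ.filter (fun T : E → SignType => IsTope L T),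
      ((Finset.univ.filter (fun p : E → SignType => Cork L p 2)).bipartiteAbove
        (fun T p => Le p T) T).card = 3 := by
    intro T hT
    have hT' : IsTope L T := by simpa using hT
    obtain ⟨i, j, k, p, q, r, hij, hik, hjk, hw, hp, hq, hr, hpT, hqT, hrT, hpi, hpj, hpk, hqi, hqj, hqk,
      hri, hrj, hrk, hall⟩ := hTRI E L hR T hT'
    have hset : (Finset.univ.filter (fun p : E → SignType => Cork L p 2)).bipartiteAbove
        (fun T p => Le p T) T = {p, q, r} := by
      ext s
      simp only [Finset.bipartiteAbove, Finset.mem_filter, Finset.mem_univ, true_and,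
        Finset.mem_insert, Finset.mem_singleton]
      constructor
      · rintro ⟨h1, h2⟩
        exact hall s h1 h2
      · rintro (rfl | rfl | rfl)
        · exact ⟨hp, hpT⟩
        · exact ⟨hq, hqT⟩
        · exact ⟨hr, hrT⟩
    rw [hset, Finset.card_eq_three]
    refine ⟨p, q, r, ?_, ?_, ?_, rfl⟩
    · rintro rfl
      exact hpi hqi
    · rintro rfl
      exact hpi hri
    · rintro rfl
      exact hqj hrj
  rw [Finset.sum_congr rfl hleft, Finset.sum_const, smul_eq_mul] at hdc
  have hsplit : Finset.univ.filter (fun p : E → SignType => Cork L p 2) =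
      Finset.univ.filter (fun p : E → SignType => Vx L 2 p) ∪
        Finset.univ.filter (fun p : E → SignType => Vx L 3 p) := by
    ext p
    simp only [Finset.mem_filter, Finset.mem_univ, true_and, Finset.mem_union]
    constructor
    · intro hp
      rcases (hSZZ E L hR.good hR.cl p hp).1 with h | h
      · exact Or.inl ⟨hp, h⟩
      · exact Or.inr ⟨hp, h⟩
    · rintro (h | h)
      · exact h.1
      · exact h.1
  have hdisj : Disjoint (Finset.univ.filter (fun p : E → SignType => Vx L 2 p))
      (Finset.univ.filter (fun p : E → SignType => Vx L 3 p)) := by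
    rw [Finset.disjoint_left]
    intro p h2 h3
    simp only [Finset.mem_filter, Finset.mem_univ, true_and] at h2 h3
    have := h2.2
    have := h3.2
    omega
  have hright : ∀ m, m = 2 ∨ m = 3 → ∀ p ∈ Finset.univ.filter (fun p : E → SignType => Vx L m p),
      ((Finset.univ.filter (fun T : E → SignType => IsTope L T)).bipartiteBelow
        (fun T p => Le p T) p).card = 2 * m := by
    intro m hm p hp
    have hp' : Vx L m p := by simpa using hp
    rw [← hSTC E L hR m p hm hp', IN2_card]
    congr 1
    ext T
    simp [Finset.bipartiteBelow]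
  rw [hsplit, Finset.sum_union hdisj, Finset.sum_congr rfl (hright 2 (Or.inl rfl)),
    Finset.sum_congr rfl (hright 3 (Or.inr rfl)), Finset.sum_const, Finset.sum_const, smul_eq_mul,
    smul_eq_mul] at hdc
  omega

end Pool.Agent.helper66.SL
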