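import Pool.Agent.helper66.SL.SpecC

set_option autoImplicit false

namespace Pool.Agent.helper66.SL

open Pool.Agent.helper52.FC

lemma PUN_star {E : Type} [Finite E] {L : Set (E → SignType)} (hG : Good L) (X : E → SignType)
    (hX : X ∈ L) : ∃ T, IsTope L T ∧ Le X T := by
  obtain ⟨T0, hT0⟩ := exists_tope hG.om
  refine ⟨cmp X T0, tope_of (hG.om.comp X hX T0 hT0.1) fun e => ?_, le_cmp X T0⟩
  by_cases h : X e = 0
  · rw [cmp_pos h]
    exact tope_supp hG.om hG.simple hT0 e
  · rw [cmp_neg h]
    exact h

lemma PUN_fz {E : Type} [Finite E] {L : Set (E → SignType)} (hG : Good L) (T : E → SignType)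
    (hT : IsTope L T) (e : E) (he : Wall L T e) : fz T e ∈ L := by
  have h0 := tope_supp hG.om hG.simple hT
  obtain ⟨Z, hZ, hZe, hZf⟩ := hG.om.elim T hT.1 (fl T e) he.1 e ⟨by rw [fl_same, neg_neg], h0 e⟩
  have : Z = fz T e := by
    funext f
    by_cases hf : f = e
    · subst hf
      rw [hZe, fz_same]
    · rw [fz_ne T hf, hZf f ?_, cmp_neg (h0 f)]
      rintro ⟨h1, h2⟩
      rw [fl_ne T hf] at h1
      exact h2 (sneg h1 rfl)
  rw [← this]
  exact hZ

lemma PUN_zero {E : Type} [Finite E] {L : Set (E → SignType)} (hR : R3 L) (hCLO : CLO) (hPAT : PAT) (hSZZ : SZZ)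
    (p : E → SignType) (hp : Cork L p 2) (x y : E) (hxy : x ≠ y) (hx : p x = 0) (hy : p y = 0) (g : E)
    (hg : p g = 0) : Cl2 L x y g := by
  have hG := hR.good
  intro Y hY hYx hYy
  obtain ⟨T, hT, hpT⟩ := PUN_star (E := E) hG p hp.1
  obtain ⟨hsz, hsz2⟩ := hSZZ E L hG hR.cl p hp
  -- it is enough to find a tope with walls x, y
  have key : ∀ S, IsTope L S → Le p S → (∀ e, Wall L S e → p e = 0 → e = x ∨ e = y) → Y g = 0 := by
    intro S hS hpS hw
    refine hCLO E L hG.om hG.simple p hp.1 S hS hpS Y hY (fun e he hpe => ?_) g hg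
    rcases hw e he hpe with rfl | rfl
    · exact hYx
    · exact hYy
  rcases hsz with h2 | h3
  · -- two elements
    refine key T hT hpT fun e _ hpe => ?_
    obtain ⟨a, b, hab, hset⟩ := Set.ncard_eq_two.1 h2
    have hmem : ∀ u, p u = 0 → u = a ∨ u = b := by
      intro u hu
      have : u ∈ {g | p g = 0} := hu
      rw [hset] at this
      simpa using this
    have h1 := hmem x hx
    have h2 := hmem y hy
    have h3 := hmem e hpe
    rcases h1 with rfl | rfl <;> rcases h2 with rfl | rfl <;> rcases h3 with rfl | rfl <;> simp_all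
  · -- three elements
    obtain ⟨c, hcx, hcy, hc0, hall⟩ : ∃ c, c ≠ x ∧ c ≠ y ∧ p c = 0 ∧ ∀ u, p u = 0 → u = x ∨ u = y ∨ u = c := by
      obtain ⟨a, b, d, hab, had, hbd, hset⟩ := Set.ncard_eq_three.1 h3
      have hmem : ∀ u, p u = 0 ↔ u = a ∨ u = b ∨ u = d := by
        intro u
        have : u ∈ {g | p g = 0} ↔ u ∈ ({a, b, d} : Set E) := by rw [hset]
        simpa using this
      have h1 := (hmem x).1 hx
      have h2 := (hmem y).1 hy
      have ha := (hmem a).2 (Or.inl rfl)
      have hb := (hmem b).2 (Or.inr (Or.inl rfl))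
      have hd := (hmem d).2 (Or.inr (Or.inr rfl))
      rcases h1 with rfl | rfl | rfl <;> rcases h2 with rfl | rfl | rfl
      · exact absurd rfl hxy
      · exact ⟨d, had.symm, hbd.symm, hd, fun u hu => by rcases (hmem u).1 hu with h | h | h <;> simp [h]⟩
      · exact ⟨b, hab.symm, hbd, hb, fun u hu => by rcases (hmem u).1 hu with h | h | h <;> simp [h]⟩
      · exact ⟨d, hbd.symm, had.symm, hd, fun u hu => by rcases (hmem u).1 hu with h | h | h <;> simp [h]⟩
      · exact absurd rfl hxy
      · exact ⟨a, hab, had, ha, fun u hu => by rcases (hmem u).1 hu with h | h | h <;> simp [h]⟩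
      · exact ⟨b, hbd, hab.symm, hb, fun u hu => by rcases (hmem u).1 hu with h | h | h <;> simp [h]⟩
      · exact ⟨a, had, hab, ha, fun u hu => by rcases (hmem u).1 hu with h | h | h <;> simp [h]⟩
      · exact absurd rfl hxy
    -- exactly two of them are walls
    have hfl : ∀ u, p u = 0 → Wall L T u → IsTope L (fl T u) ∧ Le p (fl T u) := by
      intro u hu hw
      refine ⟨hw, fun e => ?_⟩
      by_cases he : e = u
      · subst he
        exact Or.inl hu
      · rw [fl_ne T he]
        exact hpT e
    have hcard := hp.2 T hT hpT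
    by_cases hwx : Wall L T x
    · by_cases hwy : Wall L T y
      · have hP := hPAT E L hG p hp x y c hxy hcx hcy hx hy hc0 hall T hT hpT hwx hwy
        refine key T hT hpT fun e he hpe => ?_
        rcases hall e hpe with h | h | h
        · exact Or.inl h
        · exact Or.inr h
        · rw [h] at he
          exact absurd he hP.1
      · -- walls x, c
        have hwc : Wall L T c := by
          by_contra hwc
          have : {e | Wall L T e ∧ p e = 0} = {x} := by
            ext u
            simp only [Set.mem_ofPred_eq, Set.mem_singleton_iff]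
            constructor
            · rintro ⟨h1, h2⟩
              rcases hall u h2 with h | h | h
              · exact h
              · rw [h] at h1; exact absurd h1 hwy
              · rw [h] at h1; exact absurd h1 hwc
            · rintro rfl
              exact ⟨hwx, hx⟩
          rw [this, Set.ncard_singleton] at hcard
          omega
        have hP := hPAT E L hG p hp x c y hcx.symm hxy.symm hcy.symm hx hc0 hy
          (fun u hu => by rcases hall u hu with h | h | h <;> simp [h]) T hT hpT hwx hwc
        obtain ⟨hf1, hf2⟩ := hfl x hx hwx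
        refine key (fl T x) hf1 hf2 fun e he hpe => ?_
        rcases hall e hpe with h | h | h
        · exact Or.inl h
        · exact Or.inr h
        · rw [h] at he
          exact absurd he hP.2.2
    · -- walls y, c
      have hwy : Wall L T y := by
        by_contra hwy
        have : {e | Wall L T e ∧ p e = 0} ⊆ {c} := by
          rintro u ⟨h1, h2⟩
          rcases hall u h2 with h | h | h
          · rw [h] at h1; exact absurd h1 hwx
          · rw [h] at h1; exact absurd h1 hwy
          · exact h
        have := Set.ncard_le_ncard this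
        rw [Set.ncard_singleton] at this
        omega
      have hwc : Wall L T c := by
        by_contra hwc
        have : {e | Wall L T e ∧ p e = 0} ⊆ {y} := by
          rintro u ⟨h1, h2⟩
          rcases hall u h2 with h | h | h
          · rw [h] at h1; exact absurd h1 hwx
          · exact h
          · rw [h] at h1; exact absurd h1 hwc
        have := Set.ncard_le_ncard this
        rw [Set.ncard_singleton] at this
        omega
      have hP := hPAT E L hG p hp y c x hcy.symm hxy hcx.symm hy hc0 hx
        (fun u hu => by rcases hall u hu with h | h | h <;> simp [h]) T hT hpT hwy hwc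
      obtain ⟨hf1, hf2⟩ := hfl y hy hwy
      refine key (fl T y) hf1 hf2 fun e he hpe => ?_
      rcases hall e hpe with h | h | h
      · exact Or.inl h
      · exact Or.inr h
      · rw [h] at he
        exact absurd he hP.2.2

theorem PUN_proof (hCRK : CRK) (hCLO : CLO) (hXUQ : XUQ) (hPAT : PAT) (hSZZ : SZZ) : PUN := by
  intro E _ L hR p q hp hq x y hxy hpx hpy hqx hqy
  have hG := hR.good
  have hzp : ∀ g, p g = 0 ↔ Cl2 L x y g := fun g =>
    ⟨PUN_zero hR hCLO hPAT hSZZ p hp x y hxy hpx hpy g, fun h => h p hp.1 hpx hpy⟩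
  have hzq : ∀ g, q g = 0 ↔ Cl2 L x y g := fun g =>
    ⟨PUN_zero hR hCLO hPAT hSZZ q hq x y hxy hqx hqy g, fun h => h q hq.1 hqx hqy⟩
  by_contra hcon
  push Not at hcon
  obtain ⟨hne1, hne2⟩ := hcon
  obtain ⟨e, he⟩ := Function.ne_iff.1 hne1
  obtain ⟨e', he'⟩ := Function.ne_iff.1 hne2
  have hpe : p e ≠ 0 := by
    intro h
    have h2 := (hzq e).2 ((hzp e).1 h)
    exact he (by rw [h, h2])
  have hqe : q e ≠ 0 := fun h => hpe ((hzp e).2 ((hzq e).1 h))
  have hpe' : p e' ≠ 0 := by
    intro h
    have h2 := (hzq e').2 ((hzp e').1 h)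
    exact he' (by rw [h, h2]; rfl)
  have hqe' : q e' ≠ 0 := fun h => hpe' ((hzp e').2 ((hzq e').1 h))
  have h1 : p e = -q e := sne hpe hqe (fun h => he h.symm)
  have h2 : q e' = p e' := by
    by_contra h
    exact he' (sne hqe' hpe' h)
  obtain ⟨Z, hZ, hZe, hZf⟩ := hG.om.elim p hp.1 q hq.1 e ⟨h1, hpe⟩
  have hZG : ∀ g, p g = 0 → Z g = 0 := by
    intro g hg
    rw [hZf g (fun h => h.2 hg), cmp_pos hg]
    exact (hzq g).2 ((hzp g).1 hg)
  have hZe' : Z e' ≠ 0 := by
    rw [hZf e' ?_, cmp_neg hpe']
    · exact hpe'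
    · rintro ⟨h3, _⟩
      rw [h2] at h3
      exact hpe' (sneg h3 rfl)
  obtain ⟨R, hRt, hZR⟩ := PUN_star (E := E) hG Z hZ
  have hcork := hCRK E L hG Z hZ R hRt hZR
  have hW : {e | Wall L R e ∧ (fun _ : E => (0 : SignType)) e = 0}.ncard = 3 :=
    hR.rk.2 R hRt (fun _ => Or.inl rfl)
  have hW' : {e | Wall L R e}.ncard = 3 := by
    have : {e | Wall L R e ∧ (fun _ : E => (0 : SignType)) e = 0} = {e | Wall L R e} := by
      ext u
      simp
    rwa [this] at hW
  have hJW : {e | Wall L R e ∧ Z e = 0} ⊆ {e | Wall L R e} := fun u hu => hu.1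
  have hle := Set.ncard_le_ncard hJW
  rw [hW'] at hle
  have hRz := tope_supp hG.om hG.simple hRt
  have hcases : {e | Wall L R e ∧ Z e = 0}.ncard = 0 ∨ {e | Wall L R e ∧ Z e = 0}.ncard = 1 ∨
      {e | Wall L R e ∧ Z e = 0}.ncard = 2 ∨ {e | Wall L R e ∧ Z e = 0}.ncard = 3 := by omega
  rcases hcases with h | h | h | h
  · -- no wall
    have hemp : {e | Wall L R e ∧ Z e = 0} = ∅ := (Set.ncard_eq_zero (Set.toFinite _)).1 h
    have hZR' : Z = R := by
      refine hXUQ E L hG R hRt Z hZ R hRt.1 hZR (fun _ => Or.inr rfl) fun u hu => ?_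
      constructor
      · intro h3
        have : u ∈ {e | Wall L R e ∧ Z e = 0} := ⟨hu, h3⟩
        rw [hemp] at this
        exact absurd this (Set.notMem_empty _)
      · intro h3
        exact absurd h3 (hRz u)
    have := hZG x hpx
    rw [hZR'] at this
    exact hRz x this
  · -- one wall
    obtain ⟨g, hg⟩ := Set.ncard_eq_one.1 h
    have hgm : g ∈ {e | Wall L R e ∧ Z e = 0} := by rw [hg]; rfl
    have hfz := PUN_fz hG R hRt g hgm.1
    have hlef : Le (fz R g) R := by
      intro u
      by_cases hu : u = g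
      · left
        rw [hu, fz_same]
      · right
        rw [fz_ne R hu]
    have hZR' : Z = fz R g := by
      refine hXUQ E L hG R hRt Z hZ (fz R g) hfz hZR hlef fun u hu => ?_
      constructor
      · intro h3
        have : u ∈ {e | Wall L R e ∧ Z e = 0} := ⟨hu, h3⟩
        rw [hg] at this
        rw [Set.mem_singleton_iff.1 this, fz_same]
      · intro h3
        by_cases hug : u = g
        · rw [hug]
          exact hgm.2
        · rw [fz_ne R hug] at h3
          exact absurd h3 (hRz u)
    have hall : ∀ u, Z u = 0 → u = g := by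
      intro u hu
      by_contra hug
      rw [hZR', fz_ne R hug] at hu
      exact hRz u hu
    exact hxy ((hall x (hZG x hpx)).trans (hall y (hZG y hpy)).symm)
  · -- two walls
    rw [h] at hcork
    have := PUN_zero hR hCLO hPAT hSZZ Z hcork x y hxy (hZG x hpx) (hZG y hpy) e hZe
    exact hpe ((hzp e).2 this)
  · -- three walls
    have heq : {e | Wall L R e ∧ Z e = 0} = {e | Wall L R e} :=
      Set.eq_of_subset_of_ncard_le hJW (by rw [h, hW'])
    have hZ0 : Z = fun _ => 0 := by
      refine hXUQ E L hG R hRt Z hZ _ hG.om.zero hZR (fun _ => Or.inl rfl) fun u hu => ?_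
      refine ⟨fun _ => rfl, fun _ => ?_⟩
      have : u ∈ {e | Wall L R e} := hu
      rw [← heq] at this
      exact this.2
    exact hZe' (by rw [hZ0])

end Pool.Agent.helper66.SL
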