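import Pool.Agent.helper66.SL.SpecB

set_option autoImplicit false

namespace Pool.Agent.helper66.SL

open Pool.Agent.helper52.FC

/-- a point which is the only maximizer of a linear functional on `S` is an extreme point of the
convex hull of `S` -/
lemma ZO1_ext {F : Type*} [NormedAddCommGroup F] [InnerProductSpace ℝ F] (S : Set F) (p x : F) (hp : p ∈ S)
    (h : ∀ q ∈ S, q ≠ p → inner ℝ q x < inner ℝ p x) : p ∈ (convexHull ℝ S).extremePoints ℝ := by
  have hC : Convex ℝ {y : F | y = p ∨ inner ℝ y x < inner ℝ p x} := by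
    rw [convex_iff_forall_pos]
    intro y hy z hz a b ha hb hab
    have hle : ∀ w : F, (w = p ∨ inner ℝ w x < inner ℝ p x) → inner ℝ w x ≤ inner ℝ p x := by
      rintro w (rfl | hw)
      · exact le_refl _
      · exact hw.le
    have hinner : inner ℝ (a • y + b • z) x = a * inner ℝ y x + b * inner ℝ z x := by
      rw [inner_add_left, real_inner_smul_left, real_inner_smul_left]
    have hsum : inner ℝ p x = a * inner ℝ p x + b * inner ℝ p x := by
      rw [← add_mul, hab, one_mul]
    rcases hy with hy | hy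
    · rcases hz with hz | hz
      · left
        rw [hy, hz, ← add_smul, hab, one_smul]
      · right
        rw [hinner, hsum, hy]
        have := mul_lt_mul_of_pos_left hz hb
        linarith
    · right
      rw [hinner, hsum]
      have h1 := mul_lt_mul_of_pos_left hy ha
      have h2 := mul_le_mul_of_nonneg_left (hle z hz) hb.le
      linarith
  have hsub : convexHull ℝ S ⊆ {y : F | y = p ∨ inner ℝ y x < inner ℝ p x} := by
    refine convexHull_min (fun q hq => ?_) hC
    by_cases hqp : q = p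
    · exact Or.inl hqp
    · exact Or.inr (h q hq hqp)
  rw [(convex_convexHull ℝ S).mem_extremePoints_iff_convex_sdiff]
  refine ⟨subset_convexHull ℝ S hp, ?_⟩
  have heq : convexHull ℝ S \ {p} = convexHull ℝ S ∩ {y : F | inner ℝ y x < inner ℝ p x} := by
    ext y
    simp only [Set.mem_sdiff, Set.mem_singleton_iff, Set.mem_inter_iff, Set.mem_ofPred_eq]
    constructor
    · rintro ⟨h1, h2⟩
      rcases hsub h1 with h3 | h3
      · exact absurd h3 h2
      · exact ⟨h1, h3⟩
    · rintro ⟨h1, h2⟩
      refine ⟨h1, ?_⟩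
      rintro rfl
      exact lt_irrefl _ h2
  rw [heq]
  refine (convex_convexHull ℝ S).inter ?_
  rw [convex_iff_forall_pos]
  intro y hy z hz a b ha hb hab
  show inner ℝ (a • y + b • z) x < inner ℝ p x
  have hsum : inner ℝ p x = a * inner ℝ p x + b * inner ℝ p x := by
    rw [← add_mul, hab, one_mul]
  rw [inner_add_left, real_inner_smul_left, real_inner_smul_left, hsum]
  have h1 := mul_lt_mul_of_pos_left hy ha
  have h2 := mul_lt_mul_of_pos_left hz hb
  linarith

lemma ZO1_term (s : SignType) (a : ℝ) : (s : ℝ) * a ≤ |a| := by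
  cases s
  · simp
  · simpa using neg_le_abs a
  · simpa using le_abs_self a

lemma ZO1_sign (a : ℝ) : ((SignType.sign a : SignType) : ℝ) * a = |a| := by
  rcases lt_trichotomy a 0 with h | h | h
  · rw [sign_neg h, abs_of_neg h]
    simp
  · subst h
    simp
  · rw [sign_pos h, abs_of_pos h]
    simp

lemma ZO1_strict (s : SignType) (a : ℝ) (ha : a ≠ 0) (h : s ≠ SignType.sign a) : (s : ℝ) * a < |a| := by
  rcases lt_or_gt_of_ne ha with h1 | h1
  · rw [sign_neg h1] at h
    rw [abs_of_neg h1]
    cases s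
    · simpa using h1
    · exact absurd rfl h
    · have : ((SignType.pos : SignType) : ℝ) = 1 := rfl
      rw [this]
      linarith
  · rw [sign_pos h1] at h
    rw [abs_of_pos h1]
    cases s
    · simpa using h1
    · have : ((SignType.neg : SignType) : ℝ) = -1 := rfl
      rw [this]
      linarith
    · exact absurd rfl h

lemma ZO1_lt {E : Type} [Fintype E] (L : Set (E → SignType)) (d : ℕ) (v : E → EuclideanSpace ℝ (Fin d))
    (hs : IsSimple L) (hL : L = arr v) (T : E → SignType) (hT : IsTope L T) :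
    ∃ x, ∀ R : E → SignType, R ≠ T →
      inner ℝ (∑ e, (R e : ℝ) • v e) x < inner ℝ (∑ e, (T e : ℝ) • v e) x := by
  have hOM : IsOM L := by
    rw [hL]
    exact arr_om v
  have hx : T ∈ arr v := by
    rw [← hL]
    exact hT.1
  obtain ⟨x, hx⟩ := hx
  refine ⟨x, fun R hR => ?_⟩
  have hexp : ∀ Q : E → SignType, inner ℝ (∑ e, (Q e : ℝ) • v e) x = ∑ e, (Q e : ℝ) * inner ℝ (v e) x := by
    intro Q
    rw [sum_inner]
    exact Finset.sum_congr rfl fun e _ => real_inner_smul_left _ _ _
  rw [hexp, hexp]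
  have h1 : ∑ e, (T e : ℝ) * inner ℝ (v e) x = ∑ e, |inner ℝ (v e) x| :=
    Finset.sum_congr rfl fun e _ => by rw [hx e, ZO1_sign]
  rw [h1]
  obtain ⟨e, he⟩ := Function.ne_iff.1 hR
  refine Finset.sum_lt_sum (fun e _ => ZO1_term _ _) ⟨e, Finset.mem_univ _, ?_⟩
  refine ZO1_strict _ _ ?_ ?_
  · intro h0
    have := tope_supp hOM hs hT e
    rw [hx e, h0, sign_zero] at this
    exact this rfl
  · rw [← hx e]
    exact he

theorem ZO1_proof : ZO1 := by
  intro E _ L d v hs hL
  refine ⟨Set.Subset.antisymm extremePoints_convexHull_subset ?_, ?_⟩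
  · rintro _ ⟨T, rfl⟩
    obtain ⟨x, hx⟩ := ZO1_lt L d v hs hL T.1 T.2
    refine ZO1_ext _ _ x ⟨T, rfl⟩ ?_
    rintro _ ⟨R, rfl⟩ hne
    refine hx R.1 ?_
    intro h
    apply hne
    show ∑ e, (R.1 e : ℝ) • v e = ∑ e, (T.1 e : ℝ) • v e
    rw [h]
  · intro R T h
    by_contra hne
    obtain ⟨x, hx⟩ := ZO1_lt L d v hs hL T.1 T.2
    have h1 := hx R.1 (fun h2 => hne (Subtype.ext h2))
    have h2 : (∑ e, (R.1 e : ℝ) • v e) = ∑ e, (T.1 e : ℝ) • v e := h
    rw [h2] at h1
    exact lt_irrefl _ h1

end Pool.Agent.helper66.SL
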